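import Pool.Agent.Helper52.SZ.Defs

/-!
Project SZ, module SZ-10: the complement of an intersection of insensitive sets, and the final
numerical contradiction.
-/

namespace Pool.Agent.Helper52.SZ

open Combinatorics

theorem compl_ins {α η : Type} {i : α} {E : Set (η → Option α)} (h : Ins i E) : Ins i Eᶜ :=
  fun w => not_congr (h w)

theorem compl_ins_univ {α η : Type} (i : α) : Ins i (Set.univ : Set (η → Option α)) :=
  fun _ => Iff.rfl

open Classical in
theorem compl_sum_aux {α η : Type} [Finite α] [Nonempty α] [Finite η] {β : ℝ}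
    (f : (η → Option α) → ℝ)
    (hall : ∀ E : α → Set (η → Option α), (∀ i, Ins i (E i)) → av ((⋂ i, E i).indicator f) ≤ β)
    (D : α → Set (η → Option α)) (hD : ∀ i, Ins i (D i)) (S : Finset α) :
    av (({w | ∀ i ∈ S, w ∈ D i}ᶜ : Set (η → Option α)).indicator f) ≤ (S.card : ℝ) * β := by
  induction S using Finset.induction_on with
  | empty =>
    have h : ({w | ∀ i ∈ (∅ : Finset α), w ∈ D i}ᶜ : Set (η → Option α)).indicator f
        = fun _ => 0 := by
      funext w
      simp
    rw [h, av_zero]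
    simp
  | insert i S hi ih =>
    have hE : ∀ j, Ins j (if j = i then (D i)ᶜ else if j ∈ S then D j else
        (Set.univ : Set (η → Option α))) := by
      intro j
      by_cases h1 : j = i
      · subst h1
        simpa using compl_ins (hD j)
      · by_cases h2 : j ∈ S
        · simpa [h1, h2] using hD j
        · simpa [h1, h2] using compl_ins_univ j
    have h1 := hall _ hE
    have h2 : (⋂ j, (if j = i then (D i)ᶜ else if j ∈ S then D j else
        (Set.univ : Set (η → Option α)))) = {w | (∀ j ∈ S, w ∈ D j) ∧ w ∉ D i} := by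
      ext w
      simp only [Set.mem_iInter, Set.mem_setOf_eq]
      constructor
      · intro h
        refine ⟨fun j hj => ?_, ?_⟩
        · have h3 := h j
          have h4 : j ≠ i := fun h5 => hi (h5 ▸ hj)
          simpa [h4, hj] using h3
        · have h3 := h i
          simpa using h3
      · rintro ⟨h3, h4⟩ j
        by_cases h5 : j = i
        · subst h5
          simpa using h4
        · by_cases h6 : j ∈ S
          · simpa [h5, h6] using h3 j h6
          · simp [h5, h6]
    rw [h2] at h1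
    have h3 : ({w | ∀ j ∈ insert i S, w ∈ D j}ᶜ : Set (η → Option α)).indicator f
        = fun w => ({w | ∀ j ∈ S, w ∈ D j}ᶜ : Set (η → Option α)).indicator f w
          + ({w | (∀ j ∈ S, w ∈ D j) ∧ w ∉ D i} : Set (η → Option α)).indicator f w := by
      funext w
      by_cases ha : ∀ j ∈ S, w ∈ D j
      · by_cases hb : w ∈ D i
        · have e1 : w ∉ ({w | ∀ j ∈ insert i S, w ∈ D j}ᶜ : Set (η → Option α)) := by
            simp only [Set.mem_compl_iff, Set.mem_setOf_eq, not_not, Finset.mem_insert]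
            rintro j (rfl | hj)
            · exact hb
            · exact ha j hj
          have e2 : w ∉ ({w | ∀ j ∈ S, w ∈ D j}ᶜ : Set (η → Option α)) := by
            simpa only [Set.mem_compl_iff, Set.mem_setOf_eq, not_not] using ha
          have e3 : w ∉ ({w | (∀ j ∈ S, w ∈ D j) ∧ w ∉ D i} : Set (η → Option α)) :=
            fun h => h.2 hb
          rw [Set.indicator_of_notMem e1, Set.indicator_of_notMem e2,
            Set.indicator_of_notMem e3, add_zero]
        · have e1 : w ∈ ({w | ∀ j ∈ insert i S, w ∈ D j}ᶜ : Set (η → Option α)) := by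
            simp only [Set.mem_compl_iff, Set.mem_setOf_eq]
            exact fun h => hb (h i (Finset.mem_insert_self i S))
          have e2 : w ∉ ({w | ∀ j ∈ S, w ∈ D j}ᶜ : Set (η → Option α)) := by
            simpa only [Set.mem_compl_iff, Set.mem_setOf_eq, not_not] using ha
          have e3 : w ∈ ({w | (∀ j ∈ S, w ∈ D j) ∧ w ∉ D i} : Set (η → Option α)) :=
            ⟨ha, hb⟩
          rw [Set.indicator_of_mem e1, Set.indicator_of_notMem e2,
            Set.indicator_of_mem e3, zero_add]
      · have e1 : w ∈ ({w | ∀ j ∈ insert i S, w ∈ D j}ᶜ : Set (η → Option α)) := by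
          simp only [Set.mem_compl_iff, Set.mem_setOf_eq]
          exact fun h => ha fun j hj => h j (Finset.mem_insert_of_mem hj)
        have e2 : w ∈ ({w | ∀ j ∈ S, w ∈ D j}ᶜ : Set (η → Option α)) := by
          simpa only [Set.mem_compl_iff, Set.mem_setOf_eq] using ha
        have e3 : w ∉ ({w | (∀ j ∈ S, w ∈ D j) ∧ w ∉ D i} : Set (η → Option α)) :=
          fun h => ha h.1
        rw [Set.indicator_of_mem e1, Set.indicator_of_mem e2,
          Set.indicator_of_notMem e3, add_zero]
    rw [h3, av_add, Finset.card_insert_of_notMem hi]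
    push_cast
    linarith

theorem compl_sum {α η : Type} [Finite α] [Nonempty α] [Finite η] {β : ℝ}
    (f : (η → Option α) → ℝ)
    (hall : ∀ E : α → Set (η → Option α), (∀ i, Ins i (E i)) → av ((⋂ i, E i).indicator f) ≤ β)
    (D : α → Set (η → Option α)) (hD : ∀ i, Ins i (D i)) :
    av (((⋂ i, D i)ᶜ).indicator f) ≤ (Nat.card α : ℝ) * β := by
  have := Fintype.ofFinite α
  have h := compl_sum_aux f hall D hD Finset.univ
  have h1 : ({w | ∀ i ∈ (Finset.univ : Finset α), w ∈ D i} : Set (η → Option α)) = ⋂ i, D i := by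
    ext w
    simp
  rw [h1, Finset.card_univ, ← Nat.card_eq_fintype_card] at h
  exact h

theorem final_contra {α η : Type} [Finite α] [Nonempty α] [Finite η] {δ γ θ : ℝ}
    (hδ : 0 < δ) (hθ : 0 < θ) (hθ1 : θ ≤ 1) (hγ : γ = δ * θ ^ 2 / 64)
    (B : Set (η → Option α)) (D : α → Set (η → Option α)) (hD : ∀ i, Ins i (D i))
    (hall : ∀ E : α → Set (η → Option α), (∀ i, Ins i (E i)) →
      av ((⋂ i, E i).indicator (fun w => B.indicator (fun _ => (1 : ℝ)) w - (δ + γ)))
        ≤ δ * θ / (4 * ((Nat.card α : ℝ) + 1)))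
    (hB : δ - 4 * γ / θ ≤ dn B) (hDD : θ ≤ dn (⋂ i, D i))
    (hBD : dn (B ∩ ⋂ i, D i) ≤ δ * θ / 8) : False := by
  have h1 := compl_sum _ hall D hD
  set DD : Set (η → Option α) := ⋂ i, D i with hDDdef
  have h2 : (DDᶜ).indicator (fun w => B.indicator (fun _ => (1 : ℝ)) w - (δ + γ))
      = fun w => (B.indicator (fun _ => (1 : ℝ)) w - (B ∩ DD).indicator (fun _ => (1 : ℝ)) w)
        - (δ + γ) * (DDᶜ).indicator (fun _ => (1 : ℝ)) w := by
    funext w
    by_cases ha : w ∈ DD <;> by_cases hb : w ∈ B <;> simp [ha, hb]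
  have h3 : av ((DDᶜ).indicator (fun w => B.indicator (fun _ => (1 : ℝ)) w - (δ + γ)))
      = (dn B - dn (B ∩ DD)) - (δ + γ) * dn DDᶜ := by
    rw [h2, av_sub, av_sub, av_const_mul]
    rfl
  rw [h3, dn_compl] at h1
  have hc : (0 : ℝ) ≤ (Nat.card α : ℝ) := Nat.cast_nonneg _
  have h4 : (Nat.card α : ℝ) * (δ * θ / (4 * ((Nat.card α : ℝ) + 1))) ≤ δ * θ / 4 := by
    have h5 : (Nat.card α : ℝ) * (δ * θ / (4 * ((Nat.card α : ℝ) + 1)))
        = δ * θ / 4 * ((Nat.card α : ℝ) / ((Nat.card α : ℝ) + 1)) := by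
      field_simp
    rw [h5]
    refine mul_le_of_le_one_right (by positivity) ?_
    rw [div_le_one (by positivity)]
    linarith
  have h5 : 4 * γ / θ = δ * θ / 16 := by
    rw [hγ]
    field_simp
    norm_num
  have hγ0 : 0 ≤ γ := by
    rw [hγ]
    positivity
  have h6 : γ ≤ δ * θ / 64 := by
    rw [hγ]
    have : δ * θ ^ 2 ≤ δ * θ := by nlinarith [mul_pos hδ hθ]
    linarith
  have h7 : (δ + γ) * (1 - dn DD) ≤ (δ + γ) * (1 - θ) :=
    mul_le_mul_of_nonneg_left (by linarith) (by linarith)
  have h8 : 0 ≤ γ * θ := mul_nonneg hγ0 hθ.le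
  have h9 : 0 < δ * θ := mul_pos hδ hθ
  rw [h5] at hB
  nlinarith

end Pool.Agent.Helper52.SZ
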